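import Pool.Agent.H40.Sob

open Pool.Agent.H40.Sob in
theorem Pool.Agent.Results.MP_5ff22d_lc.NotCongruence.result :
    (∃ (N : Type) (_ : LF.Structure N), IsExt N) ∧
    ∀ (N : Type) [LF.Structure N], IsExt N →
      ∃ x y z a b : N, NMul x z a ∧ NMul y z b ∧ Eqv x y ∧ ¬ Eqv a b :=
  ⟨exExt, fun _ _ => notmul⟩
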